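import Pool.Agent.HAR.Stmts

namespace Pool.Agent.HAR.H42

open Finset

theorem greedy {α : Type} [DecidableEq α] (X : Finset α) (R : α → α → Prop) (D K L : ℕ) (a : α)
    (hD : ∀ a, Nat.card {b // b ∈ X ∧ R a b} ≤ D) (hX : L * K + K * D ≤ X.card) :
    ∀ m : ℕ, m ≤ L * K → ∃ f : ℕ → α, (∀ j, j < m → f j ∈ X) ∧
      (∀ j j', j < m → j' < m → f j = f j' → j = j') ∧
      ∀ j j', j < j' → j' < m → j / K = j' / K → ¬ R (f j) (f j') := by
  classical
  intro m
  induction m with
  | zero =>
    intro _
    exact ⟨fun _ => a, fun j hj => absurd hj (Nat.not_lt_zero j),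
        fun j j' hj => absurd hj (Nat.not_lt_zero j), fun j j' _ hj => absurd hj (Nat.not_lt_zero j')⟩
  | succ m ih =>
    intro hm
    obtain ⟨f, f1, f2, f3⟩ := ih (by omega)
    have hK : 0 < K := by
      rcases Nat.eq_zero_or_pos K with h | h
      · subst h
        simp at hm
      · exact h
    set J : Finset ℕ := (range m).filter fun j => j / K = m / K with hJ
    have hJc : J.card ≤ K := by
      have hsub : J ⊆ Ico (K * (m / K)) (K * (m / K) + K) := by
        intro j hj
        rw [hJ, mem_filter, mem_range] at hj
        rw [mem_Ico]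
        have h1 := Nat.div_add_mod j K
        have h2 := Nat.mod_lt j hK
        rw [hj.2] at h1
        constructor <;> omega
      have := card_le_card hsub
      rw [Nat.card_Ico] at this
      omega
    have hB : ∀ b : α, (X.filter fun x => R b x).card ≤ D := by
      intro b
      have h1 : Nat.card {x // x ∈ X ∧ R b x} = (X.filter fun x => R b x).card := by
        rw [← Fintype.card_coe, ← Nat.card_eq_fintype_card]
        exact Nat.card_congr (Equiv.subtypeEquivRight fun x => by rw [mem_filter])
      rw [← h1]
      exact hD b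
    set Y : Finset α := (range m).image f ∪ J.biUnion fun j => X.filter fun x => R (f j) x with hY
    have hYc : Y.card < X.card := by
      have h1 : Y.card ≤ m + K * D := by
        refine (card_union_le _ _).trans (Nat.add_le_add ?_ ?_)
        · exact card_image_le.trans (by rw [card_range])
        · refine card_biUnion_le.trans ?_
          refine (sum_le_sum fun j _ => hB (f j)).trans ?_
          rw [sum_const, smul_eq_mul]
          exact Nat.mul_le_mul_right D hJc
      omega
    obtain ⟨x, hx, hxY⟩ : ∃ x ∈ X, x ∉ Y := by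
      by_contra h
      push Not at h
      exact absurd (card_le_card (show X ⊆ Y from h)) (by omega)
    rw [hY, mem_union, not_or] at hxY
    obtain ⟨x1, x2⟩ := hxY
    refine ⟨fun j => if j < m then f j else x, fun j hj => ?_, fun j j' hj hj' he => ?_,
      fun j j' hjj hj' hd => ?_⟩
    · dsimp only
      split_ifs with h
      · exact f1 j h
      · exact hx
    · dsimp only at he
      split_ifs at he with h h' h'
      · exact f2 j j' h h' he
      · exact absurd (mem_image.2 ⟨j, mem_range.2 h, he⟩) x1
      · exact absurd (mem_image.2 ⟨j', mem_range.2 h', he.symm⟩) x1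
      · omega
    · dsimp only
      rw [if_pos (show j < m by omega)]
      split_ifs with h'
      · exact f3 j j' hjj h' hd
      · intro hR
        have hjm : j' = m := by omega
        subst hjm
        refine x2 (mem_biUnion.2 ⟨j, ?_, mem_filter.2 ⟨hx, hR⟩⟩)
        rw [hJ, mem_filter, mem_range]
        exact ⟨hjj, hd⟩

theorem grd : GrdStmt := by
  classical
  intro α _ X R D K L hs hD hX
  rcases X.eq_empty_or_nonempty with h0 | ⟨a, -⟩
  · subst h0
    rw [card_empty] at hX
    have hLK : L * K = 0 := by omega
    have hf : ∀ (l : Fin L) (i : Fin K), False := by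
      intro l i
      have h1 := Nat.mul_pos (Nat.lt_of_le_of_lt (Nat.zero_le _) l.2)
        (Nat.lt_of_le_of_lt (Nat.zero_le _) i.2)
      omega
    exact ⟨fun l i => (hf l i).elim, fun l i => (hf l i).elim, fun l i => (hf l i).elim,
      fun l i => (hf l i).elim⟩
  · obtain ⟨f, f1, f2, f3⟩ := greedy X R D K L a hD hX (L * K) le_rfl
    have hlt : ∀ (l : Fin L) (i : Fin K), (i : ℕ) + K * l < L * K := by
      intro l i
      have h1 : K * ((l : ℕ) + 1) ≤ K * L := Nat.mul_le_mul_left K l.2
      have h2 := i.2
      rw [Nat.mul_comm L K]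
      rw [Nat.mul_add] at h1
      omega
    have hdiv : ∀ (l : Fin L) (i : Fin K), ((i : ℕ) + K * l) / K = l := by
      intro l i
      have hK : 0 < K := Nat.lt_of_le_of_lt (Nat.zero_le _) i.2
      rw [Nat.add_mul_div_left _ _ hK, Nat.div_eq_of_lt i.2, Nat.zero_add]
    have hmod : ∀ (l : Fin L) (i : Fin K), ((i : ℕ) + K * l) % K = i := by
      intro l i
      rw [Nat.add_mul_mod_self_left, Nat.mod_eq_of_lt i.2]
    refine ⟨fun l i => f ((i : ℕ) + K * l), fun l i => f1 _ (hlt l i), fun l i l' i' he => ?_,
      fun l i i' hi hR => ?_⟩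
    · have h1 := f2 _ _ (hlt l i) (hlt l' i') he
      constructor
      · have h2 := hdiv l i
        rw [h1, hdiv l' i'] at h2
        exact (Fin.ext h2).symm
      · have h2 := hmod l i
        rw [h1, hmod l' i'] at h2
        exact (Fin.ext h2).symm
    · have hne : (i : ℕ) ≠ i' := fun h => hi (Fin.ext h)
      rcases Nat.lt_or_gt_of_ne hne with h | h
      · exact f3 _ _ (by omega) (hlt l i') (by rw [hdiv, hdiv]) hR
      · exact f3 _ _ (by omega) (hlt l i) (by rw [hdiv, hdiv]) (hs _ _ hR)

end Pool.Agent.HAR.H42
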